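import Pool.Agent.Q260.QH.Phi

/-!
# MP_87a692_al, Q1 (proved)

Let `φ` be a nonstandard involution of the quaternions, `ℓ ≥ 2`, and let the system
`A_ℓ x^(ℓ) + … + A_1 x' + A_0 x = 0` obey hypothesis (B). If it is stably bounded, then all root
subspaces of its companion matrix `C` are `(G, φ)`-definite.

The definitions `H`, `IsSolution`, `IsBoundedSystem`, `companion`, `gmat`, `IsEigenvalue`, `rootPoly`,
`rootSubspace` are in `Pool/Agent/H636R3/QDefs.lean`; `IsNonstandardInvolution` is in
`Pool/Agent/Q260/QH/Invol.lean`; `phiT`, `HypB`, `PhiStablyBounded`, `IsPhiDefinite` are in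
`Pool/Agent/Q260/QH/Phi.lean`.

Proof: `φ(x) = -β x̄ β` for a unit pure quaternion `β` (`invol_form`). The matrices `B_k = β A_k` are
hermitian for odd `k` and skewhermitian for even `k`, the two systems have the same solutions and the
same companion matrix, `G_B = β G_A` and `x* G_B x = β (x_φ G_A x)`. A `G_B`-neutral eigenvector gives a
small perturbation of `B_0` and `B_1` with an exponentially growing solution; so the form is definite on
the eigenvectors and on the root subspaces.
-/

set_option autoImplicit false

open Matrix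

namespace Pool.Agent.Results.MP_87a692_al.PhiDefinite

open Pool.Agent.H636R3.Quat Pool.Agent.Q260.QH

/-- **Q1 holds.** -/
theorem result (φ : H → H) (hφ : IsNonstandardInvolution φ) (n ℓ : ℕ) (hℓ : 2 ≤ ℓ)
    (A : ℕ → Matrix (Fin n) (Fin n) H) (hB : HypB φ ℓ A) (hst : PhiStablyBounded φ ℓ A) (l : H)
    (hl : IsEigenvalue (companion ℓ A) l) :
    IsPhiDefinite φ (gmat ℓ A) (rootSubspace (companion ℓ A) l) :=
  main_phi φ hφ n ℓ hℓ A hB hst l hl

end Pool.Agent.Results.MP_87a692_al.PhiDefinite
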